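import Pool.Agent.Y714.KI.Stm

set_option autoImplicit false

/-! Project KI: HID, the height of a tuple and the norm of the ideal generated by its entries. -/

namespace Pool.Agent.Y508.KI

open Pool.Agent.Y714.KF (FI sp nm sp_mul nm_sp nm_pos)
open NumberField FractionalIdeal Module Finset
open scoped nonZeroDivisors

/-- products over the embeddings and over the infinite places -/
theorem prod_emb {F : Type} [Field F] [NumberField F] (f : InfinitePlace F → ℝ) :
    ∏ w : F →+* ℂ, f (InfinitePlace.mk w) = ∏ v : InfinitePlace F, f v ^ v.mult := by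
  classical
  rw [← Finset.prod_fiberwise Finset.univ InfinitePlace.mk
    (fun φ : F →+* ℂ => f (InfinitePlace.mk φ))]
  refine Finset.prod_congr rfl fun v _ => ?_
  have h : ∀ φ ∈ (univ.filter fun φ : F →+* ℂ => InfinitePlace.mk φ = v),
      f (InfinitePlace.mk φ) = f v := fun φ hφ => by rw [(Finset.mem_filter.mp hφ).2]
  rw [Finset.prod_congr rfl h, Finset.prod_const, InfinitePlace.card_filter_mk_eq]

/-- the archimedean part -/
theorem arch {F : Type} [Field F] [NumberField F] {ι : Type} (x : ι → F) :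
    ∏ v : InfinitePlace F, (⨆ i, v (x i)) ^ v.mult = ∏ w : F →+* ℂ, ⨆ i, ‖w (x i)‖ := by
  rw [← prod_emb (fun v => ⨆ i, v (x i))]
  rfl

theorem prod_norm {F : Type} [Field F] [NumberField F] (c : F) :
    ∏ w : F →+* ℂ, ‖w c‖ = ((|Algebra.norm ℚ c| : ℚ) : ℝ) := by
  rw [← InfinitePlace.prod_eq_abs_norm, ← prod_emb (fun v => v c)]
  rfl

/-- the ideal generated by a finite tuple -/
theorem ideal_sum {F : Type} [Field F] [NumberField F] {ι : Type} [Fintype ι] (y : ι → 𝓞 F) :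
    ((Ideal.span (Set.range y) : Ideal (𝓞 F)) : FI F) = ∑ i, sp ((y i : 𝓞 F) : F) := by
  have h1 : Ideal.span (Set.range y) = ∑ i, Ideal.span {y i} := by
    rw [Ideal.span_range_eq_iSup, Ideal.sum_eq_sup, Finset.sup_univ_eq_iSup]
  have h2 : ((∑ i, Ideal.span {y i} : Ideal (𝓞 F)) : FI F) =
      ∑ i, ((Ideal.span {y i} : Ideal (𝓞 F)) : FI F) :=
    map_sum (coeIdealHom (𝓞 F)⁰ F) _ _
  rw [h1, h2]
  exact Finset.sum_congr rfl fun i _ => coeIdeal_span_singleton (y i)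

theorem hid : Pool.Agent.Y714.KI.S_HID := by
  intro F _ _ ι _ x hx
  obtain ⟨i₀, hi₀⟩ := hx
  have : Nonempty ι := ⟨i₀⟩
  obtain ⟨b, hb⟩ := IsLocalization.exist_integer_multiples_of_finite (𝓞 F)⁰ x
  choose y hy using hb
  obtain ⟨c, hc⟩ : ∃ c : F, c = algebraMap (𝓞 F) F b := ⟨_, rfl⟩
  have hc0 : c ≠ 0 := by
    rw [hc]
    exact (map_ne_zero_iff _ (IsFractionRing.injective (𝓞 F) F)).2 (nonZeroDivisors.coe_ne_zero b)
  have hy' : ∀ i, ((y i : 𝓞 F) : F) = c * x i := by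
    intro i
    have h1 := hy i
    rw [Algebra.smul_def, ← hc] at h1
    exact h1
  have hyx : (fun i => ((y i : 𝓞 F) : F)) = c • x := by
    funext i
    rw [hy' i]
    rfl
  have hy0 : y ≠ 0 := by
    intro h
    have h1 := hy' i₀
    rw [h] at h1
    have h2 : c * x i₀ = 0 := by
      rw [← h1]
      simp
    exact (mul_ne_zero hc0 hi₀) h2
  have hyF : (fun i => ((y i : 𝓞 F) : F)) ≠ 0 := by
    rw [hyx]
    intro h
    have h2 : c * x i₀ = 0 := congrFun h i₀
    exact (mul_ne_zero hc0 hi₀) h2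
  have h1 : Height.mulHeight x = Height.mulHeight (fun i => ((y i : 𝓞 F) : F)) := by
    rw [hyx, Height.mulHeight_smul_eq_mulHeight x hc0]
  have h2 := absNorm_mul_finprod_finitePlace_eq_one (K := F) hy0
  have h3 : ((Ideal.absNorm (Ideal.span (Set.range y)) : ℕ) : ℝ) =
      ((nm (∑ i, sp ((y i : 𝓞 F) : F)) : ℚ) : ℝ) := by
    rw [← ideal_sum, nm, coeIdeal_absNorm]
    push_cast
    rfl
  have h4 : (∑ i, sp ((y i : 𝓞 F) : F)) = sp c * ∑ i, sp (x i) := by
    rw [Finset.mul_sum]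
    refine Finset.sum_congr rfl fun i _ => ?_
    rw [hy' i, sp_mul]
  have h5 : nm (∑ i, sp ((y i : 𝓞 F) : F)) = |Algebra.norm ℚ c| * nm (∑ i, sp (x i)) := by
    rw [h4, nm, map_mul]
    congr 1
    exact nm_sp c
  have h6 : ∏ w : F →+* ℂ, ⨆ i, ‖w ((y i : 𝓞 F) : F)‖ =
      ((|Algebra.norm ℚ c| : ℚ) : ℝ) * ∏ w : F →+* ℂ, ⨆ i, ‖w (x i)‖ := by
    rw [← prod_norm, ← Finset.prod_mul_distrib]
    refine Finset.prod_congr rfl fun w _ => ?_
    rw [Real.mul_iSup_of_nonneg (norm_nonneg _)]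
    refine iSup_congr fun i => ?_
    rw [hy' i, map_mul, norm_mul]
  have hN0 : ((|Algebra.norm ℚ c| : ℚ) : ℝ) ≠ 0 := by
    have : |Algebra.norm ℚ c| ≠ 0 := abs_ne_zero.2 (Algebra.norm_ne_zero_iff.2 hc0)
    exact_mod_cast this
  have hne : (∑ i, sp (x i)) ≠ 0 := by
    intro h
    have h7 : (∑ i, sp ((y i : 𝓞 F) : F)) = 0 := by rw [h4, h, mul_zero]
    rw [← ideal_sum, coeIdeal_eq_zero] at h7
    apply hy0
    funext i
    have h8 : y i ∈ Ideal.span (Set.range y) := Ideal.subset_span ⟨i, rfl⟩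
    rw [h7] at h8
    exact h8
  have hn0 : ((nm (∑ i, sp (x i)) : ℚ) : ℝ) ≠ 0 := by
    have := (nm_pos hne).ne'
    exact_mod_cast this
  rw [h3, h5] at h2
  rw [h1, NumberField.mulHeight_eq hyF, arch, h6]
  push_cast at h2 ⊢
  rw [eq_div_iff hn0]
  linear_combination (∏ w : F →+* ℂ, ⨆ i, ‖w (x i)‖) * h2

end Pool.Agent.Y508.KI
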